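import Pool.Agent.H458.AR.Num

/-! # Project AR, numerical estimate (helper376 for helper458) -/

set_option autoImplicit false

open Filter Topology

namespace Pool.Agent.H376.AR458

theorem num : Pool.Agent.H458.AR.S_NUM := by
  intro e K ε he hε
  obtain ⟨k, hk⟩ : ∃ k : ℕ, k = 95 * e := ⟨_, rfl⟩
  obtain ⟨c, hc⟩ : ∃ c : ℝ, c = |K| / ε + 1 := ⟨_, rfl⟩
  have hc1 : 1 ≤ c := by
    rw [hc]
    have : 0 ≤ |K| / ε := by positivity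
    linarith
  have h1 := tendsto_pow_const_div_const_pow_of_one_lt k (r := (2 : ℝ)) (by norm_num)
  have h2 : ∀ᶠ m : ℕ in atTop, (m : ℝ) ^ k / 2 ^ m < 1 / (2 ^ k * c) :=
    h1.eventually_lt_const (by positivity)
  obtain ⟨m₀, hm₀⟩ := eventually_atTop.1 (h2.and (eventually_ge_atTop 1))
  refine ⟨m₀, fun m hm => ?_⟩
  obtain ⟨h3, h4⟩ := hm₀ m hm
  have hm1 : (1 : ℝ) ≤ m := by exact_mod_cast h4
  obtain ⟨n, hn⟩ : ∃ n : ℕ, n = m ^ (e - 1) := ⟨_, rfl⟩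
  have hn1 : 1 ≤ n := by
    rw [hn]
    exact Nat.one_le_pow _ _ h4
  have hmn : m ^ e = m * n := by
    rw [hn, ← pow_succ']
    congr 1
    omega
  -- the base
  have h5 : (2 * (m : ℝ)) ^ k * c ≤ 2 ^ m := by
    rw [div_lt_div_iff₀ (by positivity) (by positivity)] at h3
    rw [mul_pow]
    linarith
  have hbase : ((m ^ e : ℕ) + 1 : ℝ) * (((2 * m) ^ (2 * e) : ℕ) : ℝ) ^ 47 ≤ (2 * (m : ℝ)) ^ k := by
    have e1 : ((m ^ e : ℕ) + 1 : ℝ) ≤ (2 * (m : ℝ)) ^ e := by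
      push_cast
      rw [mul_pow]
      have e2 : (2 : ℝ) ≤ 2 ^ e := by
        calc (2 : ℝ) = 2 ^ 1 := (pow_one _).symm
          _ ≤ 2 ^ e := pow_le_pow_right₀ (by norm_num) he
      have e3 : (1 : ℝ) ≤ (m : ℝ) ^ e := one_le_pow₀ hm1
      have e4 : 2 * (m : ℝ) ^ e ≤ 2 ^ e * (m : ℝ) ^ e :=
        mul_le_mul_of_nonneg_right e2 (by positivity)
      linarith
    have e5 : (((2 * m) ^ (2 * e) : ℕ) : ℝ) ^ 47 = (2 * (m : ℝ)) ^ (94 * e) := by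
      push_cast
      rw [← pow_mul]
      congr 1
      ring
    rw [e5]
    calc ((m ^ e : ℕ) + 1 : ℝ) * (2 * (m : ℝ)) ^ (94 * e) ≤
          (2 * (m : ℝ)) ^ e * (2 * (m : ℝ)) ^ (94 * e) := mul_le_mul_of_nonneg_right e1 (by positivity)
      _ = (2 * (m : ℝ)) ^ k := by
          rw [← pow_add, hk]
          congr 1
          ring
  have hbase0 : (0 : ℝ) ≤ ((m ^ e : ℕ) + 1 : ℝ) * (((2 * m) ^ (2 * e) : ℕ) : ℝ) ^ 47 := by positivity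
  -- the quotient
  have h6 : ((m ^ e : ℕ) + 1 : ℝ) * (((2 * m) ^ (2 * e) : ℕ) : ℝ) ^ 47 ≤ 2 ^ m / c := by
    rw [le_div_iff₀ (by linarith)]
    exact (mul_le_mul_of_nonneg_right hbase (by linarith)).trans h5
  have h7 : (((m ^ e : ℕ) + 1 : ℝ) * (((2 * m) ^ (2 * e) : ℕ) : ℝ) ^ 47) ^ n ≤ 2 ^ (m * n) / c := by
    calc (((m ^ e : ℕ) + 1 : ℝ) * (((2 * m) ^ (2 * e) : ℕ) : ℝ) ^ 47) ^ n ≤ (2 ^ m / c) ^ n :=
          pow_le_pow_left₀ hbase0 h6 n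
      _ = 2 ^ (m * n) / c ^ n := by rw [div_pow, ← pow_mul]
      _ ≤ 2 ^ (m * n) / c := by
          apply div_le_div_of_nonneg_left (by positivity) (by linarith)
          calc c = c ^ 1 := (pow_one _).symm
            _ ≤ c ^ n := pow_le_pow_right₀ hc1 hn1
  have h8 : |K| ≤ ε * c := by
    rw [hc, mul_add, mul_div_cancel₀ _ hε.ne']
    linarith
  have h9 : (((m ^ e : ℕ) + 1 : ℝ) * (((2 * m) ^ (2 * e) : ℕ) : ℝ) ^ 47) ^ (m ^ (e - 1)) ≤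
      2 ^ (m ^ e) / c := by
    rw [← hn]
    have e1 : (2 : ℝ) ^ (m ^ e) = 2 ^ (m * n) := by rw [hmn]
    rw [e1]
    exact h7
  calc K * (((m ^ e : ℕ) + 1 : ℝ) * (((2 * m) ^ (2 * e) : ℕ) : ℝ) ^ 47) ^ (m ^ (e - 1))
      ≤ |K| * (((m ^ e : ℕ) + 1 : ℝ) * (((2 * m) ^ (2 * e) : ℕ) : ℝ) ^ 47) ^ (m ^ (e - 1)) :=
        mul_le_mul_of_nonneg_right (le_abs_self K) (by positivity)
    _ ≤ |K| * (2 ^ (m ^ e) / c) := mul_le_mul_of_nonneg_left h9 (abs_nonneg K)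
    _ ≤ ε * c * (2 ^ (m ^ e) / c) := mul_le_mul_of_nonneg_right h8 (by positivity)
    _ = ε * 2 ^ (m ^ e) := by
        field_simp

end Pool.Agent.H376.AR458
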